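import Pool.Agent.Lib.MP_b5021c_nt.IfaceK1

/-!
# HAN: the Hankel determinants of a sequence `c t^j + l^2` tend to zero
-/

set_option autoImplicit false

namespace Pool.Agent.MP_b5021c_nt.Han

open Polynomial Filter Topology Pool.Agent.MP_b5021c_nt

noncomputable section

/-- Hadamard's inequality. -/
theorem hadamard {N : ℕ} (A : Matrix (Fin N) (Fin N) ℝ) :
    |A.det| ≤ ∏ i, √(∑ j, A i j ^ 2) := by
  have : Fact (Module.finrank ℝ (EuclideanSpace ℝ (Fin N)) = N) := ⟨by simp⟩
  set b := EuclideanSpace.basisFun (Fin N) ℝ with hb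
  set o := b.toBasis.orientation with ho
  set v : Fin N → EuclideanSpace ℝ (Fin N) := fun i => WithLp.toLp 2 (A i) with hv
  have h1 := o.abs_volumeForm_apply_le v
  have h2 : |o.volumeForm v| = |A.det| := by
    rw [o.volumeForm_robust' b, Module.Basis.det_apply, ← Matrix.det_transpose A]
    congr 2
  have h3 : ∀ i, ‖v i‖ = √(∑ j, A i j ^ 2) := by
    intro i
    rw [EuclideanSpace.norm_eq]
    simp [hv]
  rw [h2] at h1
  refine h1.trans (le_of_eq ?_)
  exact Finset.prod_congr rfl fun i _ => h3 i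

/-- Products of numbers tending to zero tend to zero. -/
theorem prod_small (τ : ℕ → ℝ) (h0 : ∀ i, 0 ≤ τ i) (hτ : Tendsto τ atTop (𝓝 0)) :
    Tendsto (fun n => ∏ i ∈ Finset.range n, τ i) atTop (𝓝 0) := by
  obtain ⟨N, hN⟩ := eventually_atTop.1 (hτ.eventually (gt_mem_nhds (show (0 : ℝ) < 1 / 2 by norm_num)))
  have hb : ∀ k, ∏ i ∈ Finset.range (N + k), τ i ≤ (∏ i ∈ Finset.range N, τ i) * (1 / 2) ^ k := by
    intro k
    induction k with
    | zero => simp
    | succ k ih =>
      rw [← add_assoc, Finset.prod_range_succ, pow_succ, ← mul_assoc]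
      exact mul_le_mul ih (hN _ (by omega)).le (h0 _)
        (mul_nonneg (Finset.prod_nonneg fun i _ => h0 i) (by positivity))
  have h1 : Tendsto (fun k => (∏ i ∈ Finset.range N, τ i) * (1 / 2 : ℝ) ^ k) atTop (𝓝 0) := by
    have := (tendsto_pow_atTop_nhds_zero_of_lt_one (show (0 : ℝ) ≤ 1 / 2 by norm_num)
      (by norm_num)).const_mul (∏ i ∈ Finset.range N, τ i)
    simpa using this
  have h2 : Tendsto (fun k => ∏ i ∈ Finset.range (N + k), τ i) atTop (𝓝 0) :=
    squeeze_zero (fun k => Finset.prod_nonneg fun i _ => h0 i) hb h1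
  have h3 : Tendsto (fun k => ∏ i ∈ Finset.range (k + N), τ i) atTop (𝓝 0) := by
    simpa [add_comm] using h2
  exact (tendsto_add_atTop_iff_nat N).1 h3

/-- **HAN.** -/
theorem han : HanS := by
  intro a c t h _ hah hsum
  -- reduced sequences
  set e : ℕ → ℝ := fun m => (a (m + 1) : ℝ) - t * a m with he
  have heh : ∀ m, e m = h (m + 1) - t * h m := by
    intro m
    simp only [he]
    rw [hah (m + 1), hah m, pow_succ]
    ring
  have hs1 : Summable (fun j => h (j + 1) ^ 2) := (summable_nat_add_iff 1).2 hsum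
  have hes : Summable (fun m => e m ^ 2) := by
    refine Summable.of_nonneg_of_le (fun m => sq_nonneg _) (fun m => ?_)
      ((hs1.mul_left 2).add (hsum.mul_left (2 * t ^ 2)))
    rw [heh]
    nlinarith [sq_nonneg (h (m + 1) + t * h m)]
  set f : ℕ → ℝ := fun m => e (m + 1) - t * e m with hf
  have hs2 : Summable (fun j => e (j + 1) ^ 2) := (summable_nat_add_iff 1).2 hes
  have hfs : Summable (fun m => f m ^ 2) := by
    refine Summable.of_nonneg_of_le (fun m => sq_nonneg _) (fun m => ?_)
      ((hs2.mul_left 2).add (hes.mul_left (2 * t ^ 2)))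
    simp only [hf]
    nlinarith [sq_nonneg (e (m + 1) + t * e m)]
  -- tails
  set τ : ℕ → ℝ := fun i => e i ^ 2 + ∑' j, f (j + i) ^ 2 with hτ
  have hτ0 : ∀ i, 0 ≤ τ i := fun i => add_nonneg (sq_nonneg _) (tsum_nonneg fun j => sq_nonneg _)
  have hτt : Tendsto τ atTop (𝓝 0) := by
    have h1 := hes.tendsto_atTop_zero
    have h2 := tendsto_sum_nat_add (fun m => f m ^ 2)
    simpa using h1.add h2
  set C : ℝ := (a 0 : ℝ) ^ 2 + ∑' j, e j ^ 2 with hC
  have hC0 : 0 ≤ C := add_nonneg (sq_nonneg _) (tsum_nonneg fun j => sq_nonneg _)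
  -- the bound
  have key : ∀ n, ((hank a n).det : ℝ) ^ 2 ≤ C * ∏ i ∈ Finset.range n, τ i := by
    intro n
    set H : Matrix (Fin (n + 1)) (Fin (n + 1)) ℝ := Matrix.of fun i j => (a (i + j) : ℝ) with hH
    have hHd : ((hank a n).det : ℝ) = H.det := by
      have : ((hank a n).det : ℝ) = ((hank a n).map (Int.castRingHom ℝ)).det := by
        rw [← RingHom.mapMatrix_apply, ← RingHom.map_det]; simp
      rw [this]
      congr 1
    set B : Matrix (Fin (n + 1)) (Fin (n + 1)) ℝ :=
      Matrix.of fun i j => Fin.cases (a j : ℝ) (fun i' => e (i' + j)) i with hB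
    have hHB : H.det = B.det := by
      refine Matrix.det_eq_of_forall_row_eq_smul_add_pred (fun _ => t) (fun j => ?_)
        (fun i j => ?_)
      · simp [hH, hB]
      · simp only [hH, hB, he, Matrix.of_apply, Fin.cases_succ, Fin.val_succ, Fin.val_castSucc]
        rw [show (i : ℕ) + 1 + (j : ℕ) = i + j + 1 by ring]
        ring
    set G : Matrix (Fin (n + 1)) (Fin (n + 1)) ℝ :=
      Matrix.of fun i j => Fin.cases (B i 0) (fun j' => B i j'.succ - t * B i j'.castSucc) j
        with hG
    have hBG : B.det = G.det := by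
      refine Matrix.det_eq_of_forall_col_eq_smul_add_pred (fun _ => t) (fun i => ?_)
        (fun i j => ?_)
      · simp [hG]
      · simp only [hG, Matrix.of_apply, Fin.cases_succ]
        ring
    have hrow0 : ∑ j, G 0 j ^ 2 ≤ C := by
      rw [Fin.sum_univ_succ]
      have h1 : G 0 0 = a 0 := by simp [hG, hB]
      have h2 : ∀ j : Fin n, G 0 j.succ = e j := by
        intro j
        simp only [hG, hB, he, Matrix.of_apply, Fin.cases_succ, Fin.cases_zero, Fin.val_succ,
          Fin.val_castSucc]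
      rw [h1]
      simp only [h2]
      rw [Fin.sum_univ_eq_sum_range (fun j => e j ^ 2) n]
      have := hes.sum_le_tsum (Finset.range n) (fun j _ => sq_nonneg _)
      linarith
    have hrow : ∀ i : Fin n, ∑ j, G i.succ j ^ 2 ≤ τ i := by
      intro i
      rw [Fin.sum_univ_succ]
      have h1 : G i.succ 0 = e i := by simp [hG, hB]
      have h2 : ∀ j : Fin n, G i.succ j.succ = f (j + i) := by
        intro j
        simp only [hG, hB, hf, Matrix.of_apply, Fin.cases_succ, Fin.val_succ,
          Fin.val_castSucc]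
        rw [show (i : ℕ) + ((j : ℕ) + 1) = j + i + 1 by ring, show (i : ℕ) + (j : ℕ) = j + i by ring]
      rw [h1]
      simp only [h2]
      rw [Fin.sum_univ_eq_sum_range (fun j => f (j + i) ^ 2) n]
      have hfi : Summable (fun j => f (j + (i : ℕ)) ^ 2) :=
        (summable_nat_add_iff (f := fun m => f m ^ 2) (i : ℕ)).2 hfs
      have := hfi.sum_le_tsum (Finset.range n) (fun j _ => sq_nonneg _)
      simp only [hτ]
      linarith
    have h4 := hadamard G
    have h5 : (∏ i, √(∑ j, G i j ^ 2)) ^ 2 = ∏ i, ∑ j, G i j ^ 2 := by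
      rw [← Finset.prod_pow]
      exact Finset.prod_congr rfl fun i _ => Real.sq_sqrt (Finset.sum_nonneg fun j _ => sq_nonneg _)
    rw [hHd, hHB, hBG]
    calc G.det ^ 2 = |G.det| ^ 2 := (sq_abs _).symm
      _ ≤ (∏ i, √(∑ j, G i j ^ 2)) ^ 2 := pow_le_pow_left₀ (abs_nonneg _) h4 2
      _ = (∑ j, G 0 j ^ 2) * ∏ i : Fin n, ∑ j, G i.succ j ^ 2 := by
          rw [h5, Fin.prod_univ_succ]
      _ ≤ C * ∏ i : Fin n, τ i := by
          refine mul_le_mul hrow0 ?_ (Finset.prod_nonneg fun i _ =>
            Finset.sum_nonneg fun j _ => sq_nonneg _) hC0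
          exact Finset.prod_le_prod (fun i _ => Finset.sum_nonneg fun j _ => sq_nonneg _)
            (fun i _ => hrow i)
      _ = C * ∏ i ∈ Finset.range n, τ i := by rw [Fin.prod_univ_eq_prod_range τ n]
  have hlim : Tendsto (fun n => C * ∏ i ∈ Finset.range n, τ i) atTop (𝓝 0) := by
    simpa using (prod_small τ hτ0 hτt).const_mul C
  obtain ⟨N, hN⟩ := eventually_atTop.1 (hlim.eventually (gt_mem_nhds (show (0 : ℝ) < 1 by norm_num)))
  refine ⟨N, fun n hn => ?_⟩
  have h1 := (key n).trans_lt (hN n hn)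
  have h2 : (hank a n).det ^ 2 < 1 := by exact_mod_cast h1
  have h3 : (hank a n).det ^ 2 = 0 := le_antisymm (by omega) (sq_nonneg _)
  exact pow_eq_zero_iff (two_ne_zero) |>.1 h3

end

end Pool.Agent.MP_b5021c_nt.Han
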